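import Mathlib
import Pool.Agent.U291.Had.Fam

/-!
# Hadamard matrices of order `4 ^ m * (q + 2 ^ m)` for prime powers `q = -(2 ^ m + 1)` modulo `2 ^ t`

There is a constant `C` such that for all `m ≥ 2`, all `n`, `t` and all prime powers `q` with
`q + 2 ^ m ≤ 2 ↑↑ n` (the power tower of `n` twos), `t ≥ 2 ^ C ^ (n + 1)` and
`2 ^ t ∣ q + 2 ^ m + 1` there is a Hadamard matrix of order `4 ^ m * (q + 2 ^ m)`.

It is made of the skew Paley conference matrix of order `q + 1` and of a conference matrix of order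
`q + 2 ^ m + 1` from the asymptotic existence theorem for skew-Hadamard matrices
(`MP_d8b1b3_co/SkewAsymptotics`), by the construction of `Pool.Agent.U291.Had.comp_main`.
-/

set_option autoImplicit false

open Matrix

namespace Pool.Agent.Results.MP_d8b1b3_co.PrimePowerPlusPowTwo

theorem result : ∃ C : ℕ, ∀ m n q t : ℕ, 2 ≤ m → IsPrimePow q →
    q + 2 ^ m ≤ (fun x : ℕ => 2 ^ x)^[n] 1 → 2 ^ C ^ (n + 1) ≤ t → 2 ^ t ∣ q + 2 ^ m + 1 →
    ∃ H : Matrix (Fin (4 ^ m * (q + 2 ^ m))) (Fin (4 ^ m * (q + 2 ^ m))) ℤ,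
      (∀ i j, H i j = 1 ∨ H i j = -1) ∧
      H * Hᵀ = ((4 ^ m * (q + 2 ^ m) : ℕ) : ℤ) •
        (1 : Matrix (Fin (4 ^ m * (q + 2 ^ m))) (Fin (4 ^ m * (q + 2 ^ m))) ℤ) := by
  obtain ⟨C, h⟩ := Pool.Agent.U291.Had.fam_two
  exact ⟨C, fun m n q t hm hq hqn ht hqk => h m n q t hm hq hqn ht hqk⟩

end Pool.Agent.Results.MP_d8b1b3_co.PrimePowerPlusPowTwo
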