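import Mathlib
import Pool.Agent.U291.Had.Fam

/-!
# Hadamard matrices of order `4 ^ m * q` for prime powers `q = 2 ^ m - 1` modulo `2 ^ t`

There is a constant `C` such that for all `m ≥ 2`, all `n`, `t`, `k > 0` and all prime powers
`q ≤ 2 ↑↑ n` (the power tower of `n` twos) with `q + 1 = 2 ^ m + 2 ^ t * k`, `t ≥ 2 ^ C ^ (n + 1)`
there is a Hadamard matrix of order `4 ^ m * q`.

It is made of the skew conference matrix of order `2 ^ t * k` from the asymptotic existence theorem for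
skew-Hadamard matrices (`MP_d8b1b3_co/SkewAsymptotics`) and of the Paley matrix of order `q + 1`, by the
construction of `Pool.Agent.U291.Had.comp_main`.
-/

set_option autoImplicit false

open Matrix

namespace Pool.Agent.Results.MP_d8b1b3_co.PrimePowerTimesFourPow

theorem result : ∃ C : ℕ, ∀ m n q t k : ℕ, 2 ≤ m → IsPrimePow q →
    q ≤ (fun x : ℕ => 2 ^ x)^[n] 1 → 2 ^ C ^ (n + 1) ≤ t → 0 < k → q + 1 = 2 ^ m + 2 ^ t * k →
    ∃ H : Matrix (Fin (4 ^ m * q)) (Fin (4 ^ m * q)) ℤ,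
      (∀ i j, H i j = 1 ∨ H i j = -1) ∧
      H * Hᵀ = ((4 ^ m * q : ℕ) : ℤ) • (1 : Matrix (Fin (4 ^ m * q)) (Fin (4 ^ m * q)) ℤ) := by
  obtain ⟨C, h⟩ := Pool.Agent.U291.Had.fam_one
  exact ⟨C, fun m n q t k hm hq hqn ht hk hqk => h m n q t k hm hq hqn ht hk hqk⟩

end Pool.Agent.Results.MP_d8b1b3_co.PrimePowerTimesFourPow
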