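import Mathlib
import Pool.Agent.U291.Had.Fam

/-!
# Hadamard matrices of order `4 ^ m * (s + 2 ^ m - 1)`

from a symmetric or skew Hadamard matrix of order `s` and a conference matrix of order `s + 2 ^ m`.

Let `R` be the field with `r = 2 ^ m` elements and `h` the Sylvester matrix indexed by `R`. The matrix
is `B_L * O * B_Rᵀ`. Here `O` is the direct sum of `I ⊗ P + Y ⊗ I` (`P` the skew part of the Hadamard
matrix of order `s` and `Y` the symmetric Sylvester matrix of order `r`, or `P` a symmetric Hadamard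
matrix and `Y` a skew conference matrix of order `r`) and of one copy of the conference matrix
`W` of order `s + r` for every arc `(a, b)`, `a ≠ b`, of the complete digraph on `R`. The columns of
`B_L` and `B_R` are pairwise orthogonal of norm `r`. The inner rows of `B_L` and `B_R` spread a vertex
over the arcs leaving (entering) it, with the rows of `h` as coefficients; the `r ^ 2 * (r - 1)` border
rows are made from the stars `{(c, b) : b ≠ c} ∪ {(d, c)}` on one side and from the graphs of the affine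
permutations of `R` on the other. A star and an affine graph share exactly one arc with different
labels, so that all entries are `1` or `-1`.
-/

set_option autoImplicit false

open Matrix

namespace Pool.Agent.Results.MP_d8b1b3_co.SkewPlusConference

/-- Let `X` be a Hadamard matrix of order `s` which is symmetric or skew (`X + Xᵀ = 2 I`), `m ≥ 1`, and
`W` a conference matrix of order `s + 2 ^ m` (zero diagonal, other entries `±1`,
`W Wᵀ = (s + 2 ^ m - 1) I`). Then there is a Hadamard matrix of order `4 ^ m * (s + 2 ^ m - 1)`. -/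
theorem result (m s : ℕ) (hm : 1 ≤ m)
    (X : Matrix (Fin s) (Fin s) ℤ) (hX : ∀ i j, X i j = 1 ∨ X i j = -1)
    (hXX : X * Xᵀ = (s : ℤ) • (1 : Matrix (Fin s) (Fin s) ℤ))
    (hXT : Xᵀ = X ∨ X + Xᵀ = (2 : ℤ) • (1 : Matrix (Fin s) (Fin s) ℤ))
    (W : Matrix (Fin (s + 2 ^ m)) (Fin (s + 2 ^ m)) ℤ) (hW0 : ∀ i, W i i = 0)
    (hW1 : ∀ i j, i ≠ j → W i j = 1 ∨ W i j = -1)
    (hWW : W * Wᵀ = (((s + 2 ^ m : ℕ) : ℤ) - 1) •
      (1 : Matrix (Fin (s + 2 ^ m)) (Fin (s + 2 ^ m)) ℤ)) :
    ∃ H : Matrix (Fin (4 ^ m * (s + 2 ^ m - 1))) (Fin (4 ^ m * (s + 2 ^ m - 1))) ℤ,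
      (∀ i j, H i j = 1 ∨ H i j = -1) ∧
      H * Hᵀ = ((4 ^ m * (s + 2 ^ m - 1) : ℕ) : ℤ) •
        (1 : Matrix (Fin (4 ^ m * (s + 2 ^ m - 1))) (Fin (4 ^ m * (s + 2 ^ m - 1))) ℤ) :=
  Pool.Agent.U291.Had.comp_had m s hm X hX hXX hXT ⟨hW0, hW1, by rw [hWW, Fintype.card_fin]⟩

end Pool.Agent.Results.MP_d8b1b3_co.SkewPlusConference
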