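import Mathlib
import Pool.Agent.U815.Had.N1123
import Pool.Agent.U815.Had.N1483

/-!
# Hadamard matrices of orders 4492 and 5932

`4492 = 4 * 1123` and `5932 = 4 * 1483`, with `1123` and `1483` prime. Goethals-Seidel arrays: four
sign functions on `Z_1123` and on `Z_1483`, constant on the orbits of the groups of multipliers of
order `33` and `39`, with total periodic autocorrelation zero.
-/

set_option autoImplicit false

open Matrix

namespace Pool.Agent.Results.MP_d8b1b3_co.TwoPrimeCofactors

theorem result : ∀ n ∈ ([4492, 5932] : List ℕ),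
    ∃ H : Matrix (Fin n) (Fin n) ℤ,
      (∀ i j, H i j = 1 ∨ H i j = -1) ∧ H * Hᵀ = (n : ℤ) • (1 : Matrix (Fin n) (Fin n) ℤ) := by
  intro n hn
  simp only [List.mem_cons, List.not_mem_nil, or_false] at hn
  rcases hn with rfl | rfl
  · exact Pool.Agent.U815.Had.N1123.had
  · exact Pool.Agent.U815.Had.N1483.had

end Pool.Agent.Results.MP_d8b1b3_co.TwoPrimeCofactors
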